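import Pool.Agent.Helper47.UG.Stmts

set_option autoImplicit false

/-!
Module FIB of the project UG (MP_e500b6_co): the number of sieved vectors with a given value and
small smooth part.
-/

namespace Pool.Agent.Helper47.UG

open Finset
open scoped Classical
open Pool.Agent.Helper17.SO (PP LL)
open Pool.Agent.Helper37.DG (box sbox hit Free sw Spl PD)

/-- the basic identity -/
theorem fib_ident (a b c : ℤ) (v w : ℤ × ℤ) :
    bf a b c v w ^ 2 + ds a b c * dt v w ^ 2 = 4 * qf a b c v * qf a b c w := by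
  unfold bf ds dt qf
  ring

theorem fib_cram1 (a b c : ℤ) (v w : ℤ × ℤ) :
    2 * qf a b c v * w.1 = v.1 * bf a b c v w - (b * v.1 + 2 * c * v.2) * dt v w := by
  unfold bf dt qf
  ring

theorem fib_cram2 (a b c : ℤ) (v w : ℤ × ℤ) :
    2 * qf a b c v * w.2 = v.2 * bf a b c v w + (2 * a * v.1 + b * v.2) * dt v w := by
  unfold bf dt qf
  ring

/-- number of representations by `B ^ 2 + D * d ^ 2`. -/
theorem fib_pairs (D : ℤ) (hD : 0 < D) (n : ℕ) (R : Finset (ℤ × ℤ))
    (hR : ∀ u ∈ R, u.1 ^ 2 + D * u.2 ^ 2 = 4 * (n : ℤ) ^ 2) :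
    R.card ≤ 2 * (4 * n + 1) := by
  have h1 : R.card ≤ 2 * (R.image Prod.fst).card := by
    refine Finset.card_le_mul_card_image R 2 ?_
    intro B hB
    rw [Finset.mem_image] at hB
    obtain ⟨u0, hu0, hu0B⟩ := hB
    have hsub : R.filter (fun x => x.1 = B) ⊆ {(B, u0.2), (B, -u0.2)} := by
      intro u hu
      rw [Finset.mem_filter] at hu
      have e1 := hR u hu.1
      have e2 := hR u0 hu0
      rw [hu.2] at e1
      rw [hu0B] at e2
      have e3 : D * (u.2 ^ 2 - u0.2 ^ 2) = 0 := by linarith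
      have e4 : u.2 ^ 2 - u0.2 ^ 2 = 0 := by
        rcases mul_eq_zero.mp e3 with h | h
        · omega
        · exact h
      have e5 : (u.2 - u0.2) * (u.2 + u0.2) = 0 := by linarith [e4]
      rw [Finset.mem_insert, Finset.mem_singleton]
      rcases mul_eq_zero.mp e5 with h | h
      · left
        exact Prod.ext hu.2 (by show u.2 = u0.2; linarith)
      · right
        exact Prod.ext hu.2 (by show u.2 = -u0.2; linarith)
    exact (Finset.card_le_card hsub).trans Finset.card_le_two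
  have h2 : (R.image Prod.fst).card ≤ 4 * n + 1 := by
    have hsub : R.image Prod.fst ⊆ Finset.Icc (-(2 * (n : ℤ))) (2 * (n : ℤ)) := by
      intro B hB
      rw [Finset.mem_image] at hB
      obtain ⟨u, hu, rfl⟩ := hB
      have e1 := hR u hu
      have e2 : u.1 ^ 2 ≤ (2 * (n : ℤ)) ^ 2 := by
        have : 0 ≤ D * u.2 ^ 2 := mul_nonneg hD.le (sq_nonneg _)
        nlinarith
      have e3 := abs_le_of_sq_le_sq' e2 (by positivity)
      rw [Finset.mem_Icc]
      exact e3
    refine (Finset.card_le_card hsub).trans ?_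
    rw [Int.card_Icc]
    omega
  calc R.card ≤ 2 * (R.image Prod.fst).card := h1
    _ ≤ 2 * (4 * n + 1) := Nat.mul_le_mul_left 2 h2

/-- the same if the discriminant is large. -/
theorem fib_pairs' (D : ℤ) (n : ℕ) (hD : 4 * (n : ℤ) ^ 2 < D) (R : Finset (ℤ × ℤ))
    (hR : ∀ u ∈ R, u.1 ^ 2 + D * u.2 ^ 2 = 4 * (n : ℤ) ^ 2) :
    R.card ≤ 2 := by
  have hsub : R ⊆ {(2 * (n : ℤ), 0), (-(2 * (n : ℤ)), 0)} := by
    intro u hu
    have e1 := hR u hu
    have hu2 : u.2 = 0 := by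
      by_contra hne
      have h1 : 1 ≤ u.2 ^ 2 := by
        have : 0 < u.2 ^ 2 := by positivity
        omega
      have h0 : 0 ≤ 4 * (n : ℤ) ^ 2 := by positivity
      nlinarith [sq_nonneg u.1]
    rw [hu2] at e1
    have e2 : (u.1 - 2 * n) * (u.1 + 2 * n) = 0 := by linarith [e1]
    rw [Finset.mem_insert, Finset.mem_singleton]
    rcases mul_eq_zero.mp e2 with h | h
    · left
      exact Prod.ext (by show u.1 = 2 * (n : ℤ); linarith) hu2
    · right
      exact Prod.ext (by show u.1 = -(2 * (n : ℤ)); linarith) hu2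
  exact (Finset.card_le_card hsub).trans Finset.card_le_two

/-- one profile -/
theorem fib_one (a b c : ℤ) (m m1 m2 : ℕ) (hm : 1 ≤ m) (hmm : m = m2 * m1)
    (S : Finset (ℤ × ℤ)) (hS : ∀ v ∈ S, qf a b c v = m)
    (hdiv : ∀ v ∈ S, ∀ w ∈ S, ((m1 : ℤ) ∣ dt v w ∧ (m1 : ℤ) ∣ bf a b c v w))
    (v : ℤ × ℤ) (hv : v ∈ S) :
    ∃ R : Finset (ℤ × ℤ), R.card = S.card ∧
      ∀ u ∈ R, u.1 ^ 2 + ds a b c * u.2 ^ 2 = 4 * (m2 : ℤ) ^ 2 := by
  have hm1 : (m1 : ℤ) ≠ 0 := by
    have : m1 ≠ 0 := by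
      rintro rfl
      omega
    exact_mod_cast this
  have hmz : (m : ℤ) = m2 * m1 := by exact_mod_cast hmm
  have hm0 : (m : ℤ) ≠ 0 := by
    have : m ≠ 0 := by omega
    exact_mod_cast this
  refine ⟨S.image (fun w => (bf a b c v w / (m1 : ℤ), dt v w / (m1 : ℤ))), ?_, ?_⟩
  · refine Finset.card_image_of_injOn ?_
    intro x hx y hy hxy
    have hx' : x ∈ S := hx
    have hy' : y ∈ S := hy
    simp only [Prod.mk.injEq] at hxy
    obtain ⟨hxy1, hxy2⟩ := hxy
    have ex := hdiv v hv x hx'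
    have ey := hdiv v hv y hy'
    have hb : bf a b c v x = bf a b c v y := by
      have h1 := Int.mul_ediv_cancel' ex.2
      have h2 := Int.mul_ediv_cancel' ey.2
      rw [← h1, ← h2, hxy1]
    have hd : dt v x = dt v y := by
      have h1 := Int.mul_ediv_cancel' ex.1
      have h2 := Int.mul_ediv_cancel' ey.1
      rw [← h1, ← h2, hxy2]
    have c1x := fib_cram1 a b c v x
    have c1y := fib_cram1 a b c v y
    have c2x := fib_cram2 a b c v x
    have c2y := fib_cram2 a b c v y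
    rw [hS v hv] at c1x c1y c2x c2y
    rw [hb, hd] at c1x c2x
    have h2m : (2 * (m : ℤ)) ≠ 0 := by
      exact mul_ne_zero two_ne_zero hm0
    refine Prod.ext ?_ ?_
    · exact mul_left_cancel₀ h2m (c1x.trans c1y.symm)
    · exact mul_left_cancel₀ h2m (c2x.trans c2y.symm)
  · intro u hu
    rw [Finset.mem_image] at hu
    obtain ⟨w, hw, rfl⟩ := hu
    obtain ⟨⟨d, hd⟩, ⟨B, hB⟩⟩ := hdiv v hv w hw
    have e := fib_ident a b c v w
    rw [hS v hv, hS w hw] at e
    simp only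
    rw [hd, hB, Int.mul_ediv_cancel_left _ hm1, Int.mul_ediv_cancel_left _ hm1]
    rw [hd, hB, hmz] at e
    have h3 : ((m1 : ℤ) ^ 2) ≠ 0 := pow_ne_zero 2 hm1
    apply mul_left_cancel₀ h3
    linear_combination e

/-- the product of prime powers divides. -/
theorem fib_prod_dvd (Q : Finset ℕ) (hQ : ∀ p ∈ Q, p.Prime) (k : ℕ → ℕ) (x : ℤ)
    (h : ∀ p ∈ Q, ((p : ℤ) ^ k p) ∣ x) : (((∏ p ∈ Q, p ^ k p : ℕ)) : ℤ) ∣ x := by
  have e : (((∏ p ∈ Q, p ^ k p : ℕ)) : ℤ) = ∏ p ∈ Q, (p : ℤ) ^ k p := by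
    push_cast
    rfl
  rw [e]
  refine Finset.prod_dvd_of_coprime ?_ h
  intro p hp q hq hpq
  show IsCoprime ((p : ℤ) ^ k p) ((q : ℤ) ^ k q)
  refine IsCoprime.pow ?_
  rw [Nat.isCoprime_iff_coprime]
  exact (Nat.coprime_primes (hQ p hp) (hQ q hq)).mpr hpq

/-- number of profiles -/
theorem fib_profiles (Q : Finset ℕ) (k : ℕ → ℕ) (z κ m : ℕ) (hz : 2 ≤ z)
    (hQ : ∀ p ∈ Q, z ≤ p) (hm : ∏ p ∈ Q, p ^ k p ≤ m) (hκ : m < z ^ κ) :
    ∏ p ∈ Q, (k p + 1) ≤ 2 ^ κ := by
  have h1 : ∏ p ∈ Q, (k p + 1) ≤ ∏ p ∈ Q, 2 ^ k p := by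
    refine Finset.prod_le_prod' ?_
    intro p _
    exact Nat.lt_two_pow_self
  rw [Finset.prod_pow_eq_pow_sum] at h1
  have h2 : z ^ (∑ p ∈ Q, k p) ≤ ∏ p ∈ Q, p ^ k p := by
    rw [← Finset.prod_pow_eq_pow_sum]
    refine Finset.prod_le_prod' ?_
    intro p hp
    exact Nat.pow_le_pow_left (hQ p hp) _
  have h3 : z ^ (∑ p ∈ Q, k p) < z ^ κ := (h2.trans hm).trans_lt hκ
  have h4 : ∑ p ∈ Q, k p < κ := (Nat.pow_lt_pow_iff_right (by omega)).mp h3
  exact h1.trans (Nat.pow_le_pow_right (by norm_num) h4.le)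

/-- split of a number at `w` -/
theorem fib_split (m w : ℕ) (hm : 1 ≤ m) :
    m = (∏ p ∈ PP 0 w, p ^ m.factorization p) *
      ∏ p ∈ m.primeFactors.filter (fun p => w < p), p ^ m.factorization p := by
  have h0 : m ≠ 0 := by omega
  have h1 : ∏ p ∈ m.primeFactors, p ^ m.factorization p = m := by
    have := Nat.prod_factorization_pow_eq_self h0
    rw [Finsupp.prod, Nat.support_factorization] at this
    exact this
  have h2 : ∏ p ∈ m.primeFactors.filter (fun p => ¬ w < p), p ^ m.factorization p =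
      ∏ p ∈ PP 0 w, p ^ m.factorization p := by
    refine Finset.prod_subset ?_ ?_
    · intro p hp
      rw [Finset.mem_filter] at hp
      unfold PP
      rw [Finset.mem_filter, Finset.mem_Ioc]
      have hpp := Nat.prime_of_mem_primeFactors hp.1
      exact ⟨⟨hpp.pos, by omega⟩, hpp⟩
    · intro p hp hnp
      have hp' := hp
      unfold PP at hp'
      rw [Finset.mem_filter, Finset.mem_Ioc] at hp'
      have : m.factorization p = 0 := by
        by_contra hne
        apply hnp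
        rw [Finset.mem_filter]
        refine ⟨?_, by omega⟩
        rw [← Nat.support_factorization, Finsupp.mem_support_iff]
        exact hne
      rw [this, pow_zero]
  rw [← h2, mul_comm, Finset.prod_filter_mul_prod_filter_not, h1]

theorem st_FIB (h : ST_PRO) : ST_FIB := by
  intro a b c j w z κ T m S hpos hw hwz hm hroot hS hDm hsm hmz
  have hds : 0 < ds a b c := hpos.2
  have hDn : ((Dn a b c : ℕ) : ℤ) = ds a b c := by
    unfold Dn
    exact Int.toNat_of_nonneg hds.le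
  set m2 : ℕ := ∏ p ∈ PP 0 w, p ^ m.factorization p with hm2
  set Q : Finset ℕ := m.primeFactors.filter (fun p => w < p) with hQ
  set m1 : ℕ := ∏ p ∈ Q, p ^ m.factorization p with hm1
  have hsplit : m = m2 * m1 := fib_split m w hm
  have hm2pos : 1 ≤ m2 := by
    rcases Nat.eq_zero_or_pos m2 with h0 | h0
    · rw [h0, Nat.zero_mul] at hsplit
      omega
    · exact h0
  have hQp : ∀ p ∈ Q, p.Prime ∧ w < p ∧ p ∣ m := by
    intro p hp
    rw [hQ, Finset.mem_filter] at hp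
    exact ⟨Nat.prime_of_mem_primeFactors hp.1, hp.2, Nat.dvd_of_mem_primeFactors hp.1⟩
  have hQn : ∀ p ∈ Q, ¬ p ∣ 2 * Dn a b c := by
    intro p hp hd
    obtain ⟨hpp, hwp, hpm⟩ := hQp p hp
    rcases (Nat.Prime.dvd_mul hpp).mp hd with h2 | h2
    · have := Nat.le_of_dvd (by norm_num) h2
      omega
    · exact hDm p hpp hwp h2 hpm
  have hQn' : ∀ p ∈ Q, ¬ (p : ℤ) ∣ 2 * ds a b c := by
    intro p hp hd
    rw [← hDn] at hd
    apply hQn p hp
    exact_mod_cast hd
  -- the profiles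
  have hex : ∀ p : ℕ, ∃ e : ℤ × ℤ → ℕ, p ∈ Q → (∀ v, e v ≤ m.factorization p) ∧
      (∀ v w : ℤ × ℤ, ((p : ℤ) ^ m.factorization p) ∣ qf a b c v →
        ((p : ℤ) ^ m.factorization p) ∣ qf a b c w → e v = e w →
        ((p : ℤ) ^ m.factorization p) ∣ dt v w ∧ ((p : ℤ) ^ m.factorization p) ∣ bf a b c v w) ∧
      ((p : ℤ) ∣ a * j p ^ 2 - b * j p + c → ∀ v : ℤ × ℤ, ¬ (p : ℤ) ∣ v.1 + j p * v.2 → e v = 0) ∧
      ((¬ ∃ r : ℤ, (p : ℤ) ∣ r ^ 2 + ds a b c) → ∀ v : ℤ × ℤ, e v = 0) := by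
    intro p
    by_cases hp : p ∈ Q
    · obtain ⟨e, he⟩ := h a b c p (m.factorization p) (j p) (hQp p hp).1 (hQn' p hp)
      exact ⟨e, fun _ => he⟩
    · exact ⟨fun _ => 0, fun hp' => absurd hp' hp⟩
  choose e he using hex
  have hsmall : ∀ p ∈ Q, p ≤ z → ∀ v ∈ S, e p v = 0 := by
    intro p hp hpz v hv
    obtain ⟨hpp, hwp, hpm⟩ := hQp p hp
    obtain ⟨_, _, h3, h4⟩ := he p hp
    by_cases hr : ∃ r : ℤ, (p : ℤ) ∣ r ^ 2 + ds a b c
    · have hmem : p ∈ PD (Dn a b c) w z := by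
        unfold PD PP
        rw [Finset.mem_filter, Finset.mem_filter, Finset.mem_Ioc]
        refine ⟨⟨⟨hwp, hpz⟩, hpp⟩, hpp, hQn p hp, ?_⟩
        obtain ⟨r, hr⟩ := hr
        refine ⟨r, ?_⟩
        rw [hDn]
        exact hr
      exact h3 (hroot p hmem) v ((hS v hv).2 p hmem)
    · exact h4 hr v
  set Q' : Finset ℕ := Q.filter (fun p => z < p) with hQ'
  let f : ℤ × ℤ → (∀ p ∈ Q', ℕ) := fun v p _ => e p v
  have himage : (S.image f).card ≤ 2 ^ κ := by
    have hsub : S.image f ⊆ Q'.pi (fun p => Finset.range (m.factorization p + 1)) := by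
      intro g hg
      rw [Finset.mem_image] at hg
      obtain ⟨v, hv, rfl⟩ := hg
      rw [Finset.mem_pi]
      intro p hp
      rw [Finset.mem_range]
      have hpQ : p ∈ Q := (Finset.mem_filter.mp hp).1
      exact Nat.lt_succ_of_le ((he p hpQ).1 v)
    refine (Finset.card_le_card hsub).trans ?_
    rw [Finset.card_pi]
    simp only [Finset.card_range]
    refine fib_profiles Q' m.factorization z κ m (hw.trans hwz) ?_ ?_ hmz
    · intro p hp
      exact (Finset.mem_filter.mp hp).2.le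
    · have h1 : ∏ p ∈ Q', p ^ m.factorization p ≤ m1 := by
        rw [hm1]
        refine Finset.prod_le_prod_of_subset_of_one_le' (Finset.filter_subset _ _) ?_
        intro p hp _
        exact Nat.one_le_pow _ _ (hQp p hp).1.pos
      calc ∏ p ∈ Q', p ^ m.factorization p ≤ m1 := h1
        _ ≤ m2 * m1 := Nat.le_mul_of_pos_left m1 hm2pos
        _ = m := hsplit.symm
  -- one profile
  have hfib : ∀ g ∈ S.image f, ∃ R : Finset (ℤ × ℤ), R.card = (S.filter (fun x => f x = g)).card ∧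
      ∀ u ∈ R, u.1 ^ 2 + ds a b c * u.2 ^ 2 = 4 * (m2 : ℤ) ^ 2 := by
    intro g hg
    rw [Finset.mem_image] at hg
    obtain ⟨v, hv, hvg⟩ := hg
    refine fib_one a b c m m1 m2 hm hsplit _ ?_ ?_ v ?_
    · intro x hx
      exact (hS x (Finset.mem_filter.mp hx).1).1
    · intro x hx y hy
      rw [Finset.mem_filter] at hx hy
      have heq : ∀ p ∈ Q, e p x = e p y := by
        intro p hp
        rcases Nat.lt_or_ge z p with hzp | hpz
        · have hp' : p ∈ Q' := Finset.mem_filter.mpr ⟨hp, hzp⟩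
          have h1 : f x = f y := hx.2.trans hy.2.symm
          exact congrFun (congrFun h1 p) hp'
        · rw [hsmall p hp hpz x hx.1, hsmall p hp hpz y hy.1]
      have hdq : ∀ p : ℕ, ∀ v ∈ S, ((p : ℤ) ^ m.factorization p) ∣ qf a b c v := by
        intro p v hv
        rw [(hS v hv).1]
        have := Nat.ordProj_dvd m p
        exact_mod_cast this
      constructor
      · exact fib_prod_dvd Q (fun p hp => (hQp p hp).1) m.factorization _ (fun p hp =>
          ((he p hp).2.1 x y (hdq p x hx.1) (hdq p y hy.1) (heq p hp)).1)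
      · exact fib_prod_dvd Q (fun p hp => (hQp p hp).1) m.factorization _ (fun p hp =>
          ((he p hp).2.1 x y (hdq p x hx.1) (hdq p y hy.1) (heq p hp)).2)
    · exact Finset.mem_filter.mpr ⟨hv, hvg⟩
  constructor
  · have h1 : S.card ≤ (8 * w ^ T + 2) * (S.image f).card := by
      refine Finset.card_le_mul_card_image S _ ?_
      intro g hg
      obtain ⟨R, hR1, hR2⟩ := hfib g hg
      have h2 := fib_pairs (ds a b c) hds m2 R hR2
      rw [hR1] at h2
      omega
    calc S.card ≤ (8 * w ^ T + 2) * (S.image f).card := h1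
      _ ≤ (8 * w ^ T + 2) * 2 ^ κ := Nat.mul_le_mul_left _ himage
      _ = 2 ^ κ * (8 * w ^ T + 2) := Nat.mul_comm _ _
  · intro hlarge
    have h1 : S.card ≤ 2 * (S.image f).card := by
      refine Finset.card_le_mul_card_image S _ ?_
      intro g hg
      obtain ⟨R, hR1, hR2⟩ := hfib g hg
      have h3 : 4 * (m2 : ℤ) ^ 2 < ds a b c := by
        rw [← hDn]
        have h4 : 4 * m2 ^ 2 ≤ 4 * w ^ (2 * T) := by
          have : m2 ^ 2 ≤ (w ^ T) ^ 2 := Nat.pow_le_pow_left hsm 2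
          rw [← pow_mul, Nat.mul_comm T 2] at this
          omega
        exact_mod_cast lt_of_le_of_lt h4 hlarge
      have h2 := fib_pairs' (ds a b c) m2 h3 R hR2
      rw [hR1] at h2
      exact h2
    calc S.card ≤ 2 * (S.image f).card := h1
      _ ≤ 2 * 2 ^ κ := Nat.mul_le_mul_left _ himage
      _ = 2 ^ κ * 2 := Nat.mul_comm _ _

end Pool.Agent.Helper47.UG
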